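import Pool.Agent.N479.SK.Kite
import Pool.Agent.U823.KT.Geo

/-!
# All cyclic kites are Ramsey, and the transcendental ones lie in no finite transitive set
-/

set_option autoImplicit false

namespace Pool.Agent.Results.MP_5f8029_co.AllKites

/-- The inclusion of `ℝ^m` in `ℝ^n` by the first `m` coordinates (`m ≤ n`). -/
noncomputable def incl {m : ℕ} (n : ℕ) (x : EuclideanSpace ℝ (Fin m)) :
    EuclideanSpace ℝ (Fin n) :=
  WithLp.toLp 2 (fun j : Fin n => if h : (j : ℕ) < m then x ⟨j, h⟩ else 0)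

/-- `X ⊆ ℝ^m` is Ramsey: for every positive integer `k` there is `n ≥ m` such that for every
colouring `c` of `ℝ^n` with `k` colours there is an isometry `φ` of `ℝ^n` for which `φ X` is
monochromatic. -/
def IsRamsey {m : ℕ} (X : Set (EuclideanSpace ℝ (Fin m))) : Prop :=
  ∀ k : ℕ, 0 < k → ∃ n : ℕ, m ≤ n ∧ ∀ c : EuclideanSpace ℝ (Fin n) → Fin k,
    ∃ φ : EuclideanSpace ℝ (Fin n) ≃ᵢ EuclideanSpace ℝ (Fin n), ∃ i : Fin k,
      ∀ x ∈ X, c (φ (incl n x)) = i

/-- The kite `K_a`. -/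
noncomputable def kite (a : ℝ) : Set (EuclideanSpace ℝ (Fin 2)) :=
  {!₂[1, 0], !₂[-1, 0], !₂[a, √(1 - a ^ 2)], !₂[a, -√(1 - a ^ 2)]}

/-- `Y` is a finite transitive set: it is finite and the isometries of the space which map `Y` onto
`Y` act transitively on `Y`. -/
def IsTransitiveSet {n : ℕ} (Y : Set (EuclideanSpace ℝ (Fin n))) : Prop :=
  Y.Finite ∧ ∀ x ∈ Y, ∀ y ∈ Y, ∃ g : EuclideanSpace ℝ (Fin n) ≃ᵢ EuclideanSpace ℝ (Fin n),
    g '' Y = Y ∧ g x = y

/-- `X` embeds into a transitive set: it is congruent to a subset of some finite transitive set in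
some Euclidean space. -/
def EmbedsIntoTransitive {m : ℕ} (X : Set (EuclideanSpace ℝ (Fin m))) : Prop :=
  ∃ (n : ℕ) (Y : Set (EuclideanSpace ℝ (Fin n)))
    (h : EuclideanSpace ℝ (Fin m) → EuclideanSpace ℝ (Fin n)), IsTransitiveSet Y ∧
    (∀ x ∈ X, h x ∈ Y) ∧ ∀ x ∈ X, ∀ y ∈ X, dist (h x) (h y) = dist x y

section
open Pool.Agent.N479.SK Pool.Agent.N479.ER

/-- the four vertices, in the order `(1, 0)`, `(-1, 0)`, `(a, b)`, `(a, -b)` -/
noncomputable def pts (a : ℝ) : Fin 4 → EuclideanSpace ℝ (Fin 2) :=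
  ![!₂[1, 0], !₂[-1, 0], !₂[a, √(1 - a ^ 2)], !₂[a, -√(1 - a ^ 2)]]

lemma sq_pts {a : ℝ} (h1 : -1 < a) (h2 : a < 1) (i j : Fin 4) :
    Pool.Agent.N479.ER.sq (pts a i).ofLp (pts a j).ofLp =
      ![![0, 4, 2 * (1 - a), 2 * (1 - a)], ![4, 0, 2 * (1 + a), 2 * (1 + a)],
        ![2 * (1 - a), 2 * (1 + a), 0, 4 * (1 - a ^ 2)],
        ![2 * (1 - a), 2 * (1 + a), 4 * (1 - a ^ 2), 0]] i j := by
  have hb : √(1 - a ^ 2) ^ 2 = 1 - a ^ 2 := Real.sq_sqrt (by nlinarith)
  fin_cases i <;> fin_cases j <;> simp [Pool.Agent.N479.ER.sq, pts, Fin.sum_univ_two] <;>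
    ring_nf <;> try rw [hb]
  all_goals ring_nf

/-- the colouring statement in terms of squared distances -/
lemma colour {a : ℝ} (h1 : -1 < a) (h2 : a < 1) (k : ℕ) (hk : 0 < k) :
    ∃ (ι : Type) (_ : Fintype ι), ∀ c : (ι → ℝ) → Fin k, ∃ f : Fin 4 → ι → ℝ,
      (∀ p p', Pool.Agent.N479.ER.sq (f p) (f p') =
        Pool.Agent.N479.ER.sq (pts a p).ofLp (pts a p').ofLp) ∧ ∀ p p', c (f p) = c (f p') := by
  have : Nonempty (Fin k) := ⟨⟨0, hk⟩⟩
  rcases lt_trichotomy a 0 with ha | ha | ha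
  · obtain ⟨ι, i, H⟩ := kite_neg (κ := Fin k) a h1 ha
    refine ⟨ι, i, fun c => ?_⟩
    obtain ⟨f, z, e1, e2, e3, e4, e5, e6, hc⟩ := H c
    refine ⟨![f 0, z, f 1, f 2], fun p p' => ?_, fun p p' => ?_⟩
    · rw [sq_pts h1 h2]
      have e1' := (sq_comm (f 1) (f 0)).trans e1
      have e2' := (sq_comm (f 2) (f 0)).trans e2
      have e3' := (sq_comm (f 2) (f 1)).trans e3
      have e4' := (sq_comm (f 0) z).trans e4
      have e5' := (sq_comm (f 1) z).trans e5
      have e6' := (sq_comm (f 2) z).trans e6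
      fin_cases p <;> fin_cases p' <;> simp [sq_self, *]
    · have hall : ∀ p, c ((![f 0, z, f 1, f 2] : Fin 4 → ι → ℝ) p) = c z := by
        intro p
        fin_cases p
        · exact hc 0
        · rfl
        · exact hc 1
        · exact hc 2
      exact (hall p).trans (hall p').symm
  · subst ha
    obtain ⟨ι, i, H⟩ := kite_zero (κ := Fin k)
    refine ⟨ι, i, fun c => ?_⟩
    obtain ⟨f, e1, e2, e3, e4, e5, e6, hc⟩ := H c
    refine ⟨f, fun p p' => ?_, hc⟩
    rw [sq_pts h1 h2]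
    have e1' := (sq_comm (f 1) (f 0)).trans e1
    have e2' := (sq_comm (f 2) (f 0)).trans e2
    have e3' := (sq_comm (f 3) (f 0)).trans e3
    have e4' := (sq_comm (f 2) (f 1)).trans e4
    have e5' := (sq_comm (f 3) (f 1)).trans e5
    have e6' := (sq_comm (f 3) (f 2)).trans e6
    fin_cases p <;> fin_cases p' <;> simp [sq_self, *]
  · obtain ⟨ι, i, H⟩ := kite_neg (κ := Fin k) (-a) (by linarith) (by linarith)
    refine ⟨ι, i, fun c => ?_⟩
    obtain ⟨f, z, e1, e2, e3, e4, e5, e6, hc⟩ := H c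
    refine ⟨![z, f 0, f 1, f 2], fun p p' => ?_, fun p p' => ?_⟩
    · rw [sq_pts h1 h2]
      have e1' := (sq_comm (f 1) (f 0)).trans e1
      have e2' := (sq_comm (f 2) (f 0)).trans e2
      have e3' := (sq_comm (f 2) (f 1)).trans e3
      have e4' := (sq_comm (f 0) z).trans e4
      have e5' := (sq_comm (f 1) z).trans e5
      have e6' := (sq_comm (f 2) z).trans e6
      fin_cases p <;> fin_cases p' <;> simp [sq_self, *] <;> ring
    · have hall : ∀ p, c ((![z, f 0, f 1, f 2] : Fin 4 → ι → ℝ) p) = c z := by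
        intro p
        fin_cases p
        · rfl
        · exact hc 0
        · exact hc 1
        · exact hc 2
      exact (hall p).trans (hall p').symm

end

/-- **All cyclic kites are Ramsey.**  For every real `a` with `-1 < a < 1` the kite `K_a` is Ramsey;
and if `a` is transcendental, then `K_a` does not embed into any finite transitive set, so that the
conjecture that the Ramsey sets are the subsets of the finite transitive sets is false. -/
theorem result (a : ℝ) (h1 : -1 < a) (h2 : a < 1) :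
    IsRamsey (kite a) ∧ (Transcendental ℚ a → ¬ EmbedsIntoTransitive (kite a)) := by
  refine ⟨fun k hk => ?_, fun ha => ?_⟩
  · obtain ⟨n, hn, H⟩ := Pool.Agent.N479.SK.ramsey_of (k := k) (pts a) (colour h1 h2 k hk)
    refine ⟨n, hn, fun c => ?_⟩
    obtain ⟨φ, hφ⟩ := H c
    refine ⟨φ, c (φ (incl n (pts a 0))), ?_⟩
    rintro x (hx | hx | hx | hx)
    · subst hx
      rfl
    · subst hx
      exact hφ 1 0
    · subst hx
      exact hφ 2 0
    · rw [Set.mem_singleton_iff] at hx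
      subst hx
      exact hφ 3 0
  · rintro ⟨n, Y, h, ⟨hY, htr⟩, hin, hiso⟩
    have hmem : ∀ i, pts a i ∈ kite a := by
      intro i
      fin_cases i <;> simp [pts, kite]
    have hd : ∀ i j, dist (h (pts a i)) (h (pts a j)) ^ 2 =
        Pool.Agent.N479.ER.sq (pts a i).ofLp (pts a j).ofLp := by
      intro i j
      rw [hiso _ (hmem i) _ (hmem j), Pool.Agent.N479.SK.dist_sq']
    refine Pool.Agent.U823.KT.no_kite hY htr ha (hin _ (hmem 0)) (hin _ (hmem 1))
      (hin _ (hmem 2)) (hin _ (hmem 3)) ?_ ?_ ?_ ?_ ?_ ?_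
    all_goals rw [hd, sq_pts h1 h2]; simp

end Pool.Agent.Results.MP_5f8029_co.AllKites
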